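import Mathlib

/-!
Definitions for `MP_688354_co` (facet-representing point sets).
-/

open Set

namespace Pool.Agent.R179.Fac

/-- Euclidean space. -/
abbrev E (d : ℕ) := EuclideanSpace ℝ (Fin d)

/-- The set given by finitely many linear inequalities `⟪u i, x⟫ ≤ h i`. -/
def HPoly {d n : ℕ} (u : Fin n → E d) (h : Fin n → ℝ) : Set (E d) :=
  {x | ∀ i, inner ℝ (u i) x ≤ h i}

/-- The face of `HPoly u h` in the hyperplane `⟪u i, x⟫ = h i`. -/
def face {d n : ℕ} (u : Fin n → E d) (h : Fin n → ℝ) (i : Fin n) : Set (E d) :=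
  {x ∈ HPoly u h | inner ℝ (u i) x = h i}

/-- A convex polytope: a bounded intersection of finitely many closed half-spaces. -/
def IsPolytope {d : ℕ} (P : Set (E d)) : Prop :=
  Bornology.IsBounded P ∧ ∃ (n : ℕ) (u : Fin n → E d) (h : Fin n → ℝ), P = HPoly u h

/-- `P` is symmetric about some point. -/
def IsCentrallySymmetric {d : ℕ} (P : Set (E d)) : Prop := ∃ c : E d, ∀ x ∈ P, (2 : ℝ) • c - x ∈ P

/-- A facet of `P`: a nonempty `(d-1)`-dimensional intersection of `P` with a supporting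
hyperplane. -/
def IsFacet {d : ℕ} (P F : Set (E d)) : Prop :=
  ∃ (u : E d) (h : ℝ), u ≠ 0 ∧ (∀ x ∈ P, inner ℝ u x ≤ h) ∧ F = {x ∈ P | inner ℝ u x = h} ∧
    F.Nonempty ∧ Module.finrank ℝ (vectorSpan ℝ F) + 1 = d

/-- The number `|P|` of facets. -/
noncomputable def numFacets {d : ℕ} (P : Set (E d)) : ℕ := Set.ncard {F : Set (E d) | IsFacet P F}

/-- The least number of boundary points that meet every facet of `P`. -/
noncomputable def minRep {d : ℕ} (P : Set (E d)) : ℕ :=
  sInf {k | ∃ K : Finset (E d), (K : Set (E d)) ⊆ frontier P ∧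
    (∀ F, IsFacet P F → ((K : Set (E d)) ∩ F).Nonempty) ∧ K.card = k}

/-- The bodies over which the supremum in `L_d` is taken. -/
def Adm (d : ℕ) (P : Set (E d)) : Prop :=
  IsPolytope P ∧ (interior P).Nonempty ∧ IsCentrallySymmetric P

/-- The number `L_d`. -/
noncomputable def L (d : ℕ) : ℝ :=
  sSup {r : ℝ | ∃ P : Set (E d), Adm d P ∧ r = (minRep P : ℝ) / numFacets P}

/-! ### auxiliary notions -/

/-- Irredundance: every inequality is violated alone by some point. -/
def Irr {d n : ℕ} (u : Fin n → E d) (h : Fin n → ℝ) : Prop :=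
  (∀ i, u i ≠ 0) ∧ ∀ i, ∃ y, h i < inner ℝ (u i) y ∧ ∀ j, j ≠ i → inner ℝ (u j) y < h j

/-- The touching graph of the faces. -/
def touch {d n : ℕ} (u : Fin n → E d) (h : Fin n → ℝ) : SimpleGraph (Fin n) where
  Adj i j := i ≠ j ∧ (face u h i ∩ face u h j).Nonempty
  symm := ⟨fun _ _ hij => ⟨hij.1.symm, by rw [Set.inter_comm]; exact hij.2⟩⟩
  loopless := ⟨fun _ hi => hi.1 rfl⟩

/-- `Q` is a bounded origin-symmetric set with nonempty interior given by `N` half-spaces with a
symmetric set `W` of `M` points, each of which is the unique maximizer in `Q` of a linear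
functional, chosen antipodally. -/
def HasNM (d N M : ℕ) : Prop :=
  ∃ (u : Fin N → E d) (h : Fin N → ℝ) (W : Finset (E d)) (f : E d → E d),
    Bornology.IsBounded (HPoly u h) ∧ (∃ x, ∀ i, inner ℝ (u i) x < h i) ∧
    (∀ x ∈ HPoly u h, -x ∈ HPoly u h) ∧ W.card = M ∧
    ∀ w ∈ W, w ∈ HPoly u h ∧ -w ∈ W ∧ f (-w) = -f w ∧
      ∀ x ∈ HPoly u h, x ≠ w → inner ℝ (f w) x < inner ℝ (f w) w

end Pool.Agent.R179.Fac
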