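import Pool.Agent.R179.Fac.Stmts

/-!
Assembly for `MP_688354_co`: `L 3 = 2/3` and `L d = 1` for `d ≥ 4` from the statements `St_*`.
-/

open Set

namespace Pool.Agent.R179.Fac

theorem mem_frontier_of_support {d : ℕ} {P : Set (E d)} {u : E d} {h : ℝ} (hu : u ≠ 0)
    (hle : ∀ x ∈ P, inner ℝ u x ≤ h) {x : E d} (hx : x ∈ P) (hxh : inner ℝ u x = h) :
    x ∈ frontier P := by
  refine ⟨subset_closure hx, fun hint => ?_⟩
  have hcont : Filter.Tendsto (fun t : ℝ => x + t • u) (nhdsWithin 0 (Ioi 0)) (nhds x) := by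
    have : Continuous (fun t : ℝ => x + t • u) := by fun_prop
    have h2 := this.tendsto 0
    simp only [zero_smul, add_zero] at h2
    exact h2.mono_left nhdsWithin_le_nhds
  have hev := hcont.eventually (mem_interior_iff_mem_nhds.1 hint)
  have hpos : ∀ᶠ t : ℝ in nhdsWithin 0 (Ioi 0), 0 < t := eventually_mem_nhdsWithin
  obtain ⟨t, ht1, ht2⟩ := (hev.and hpos).exists
  have h1 := hle _ ht1
  rw [inner_add_right, inner_smul_right, hxh, real_inner_self_eq_norm_sq] at h1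
  have : 0 < ‖u‖ := norm_pos_iff.2 hu
  nlinarith [mul_pos ht2 (pow_pos this 2)]

theorem facet_frontier {d : ℕ} {P F : Set (E d)} (hF : IsFacet P F) : F ⊆ frontier P := by
  obtain ⟨u, h, hu, hle, rfl, -, -⟩ := hF
  intro x hx
  exact mem_frontier_of_support hu hle hx.1 hx.2

theorem facet_nonempty {d : ℕ} {P F : Set (E d)} (hF : IsFacet P F) : F.Nonempty := by
  obtain ⟨u, h, hu, hle, -, hn, -⟩ := hF
  exact hn

theorem minRep_le {d : ℕ} {P : Set (E d)} (K : Finset (E d)) (h1 : (K : Set (E d)) ⊆ frontier P)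
    (h2 : ∀ F, IsFacet P F → ((K : Set (E d)) ∩ F).Nonempty) : minRep P ≤ K.card :=
  Nat.sInf_le ⟨K, h1, h2, rfl⟩

theorem minRep_le_numFacets (hA1 : St_A1) {d : ℕ} {P : Set (E d)} (hP : Adm d P) :
    minRep P ≤ numFacets P := by
  classical
  obtain ⟨n, u, h, -, -, -, -, hfac⟩ := hA1 d P hP.1 hP.2.1
  have hfin : {F | IsFacet P F}.Finite := by rw [hfac]; exact Set.finite_range _
  have hch : ∀ F : Set (E d), ∃ x : E d, IsFacet P F → x ∈ F := by
    intro F
    by_cases hF : IsFacet P F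
    · obtain ⟨x, hx⟩ := facet_nonempty hF
      exact ⟨x, fun _ => hx⟩
    · exact ⟨0, fun h => absurd h hF⟩
  choose p hp using hch
  have h1 := minRep_le (P := P) (hfin.toFinset.image p) ?_ ?_
  · refine h1.trans (Finset.card_image_le.trans ?_)
    rw [numFacets, Set.ncard_eq_toFinset_card _ hfin]
  · intro x hx
    simp only [Finset.coe_image, Set.Finite.coe_toFinset, mem_image, Set.mem_ofPred_eq] at hx
    obtain ⟨F, hF, rfl⟩ := hx
    exact facet_frontier hF (hp F hF)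
  · intro F hF
    refine ⟨p F, ?_, hp F hF⟩
    simp only [Finset.coe_image, Set.Finite.coe_toFinset, mem_image, Set.mem_ofPred_eq]
    exact ⟨F, hF, rfl⟩

theorem ub3 (hA1 : St_A1) (hB1 : St_B1) (hB2 : St_B2) (hC : St_C) {P : Set (E 3)}
    (hP : Adm 3 P) : 3 * minRep P ≤ 2 * numFacets P := by
  classical
  obtain ⟨n, u, h, hPeq, hIrr, hx0, hinj, hfac⟩ := hA1 3 P hP.1 hP.2.1
  have hbd : Bornology.IsBounded (HPoly u h) := hPeq ▸ hP.1.1
  obtain ⟨hn3, hconn⟩ := hB1 n u h hbd hx0 hIrr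
  obtain ⟨m, c, hm, hadj, h3⟩ := hC n (touch u h) hn3 hconn (hB2 n u h hbd hx0 hIrr)
  have hnum : numFacets P = n := by
    rw [numFacets, hfac, ← Set.image_univ, Set.ncard_image_of_injective _ hinj, Set.ncard_univ]
    simp
  have hfacet : ∀ i, IsFacet P (face u h i) := by
    intro i
    have : face u h i ∈ {F | IsFacet P F} := by rw [hfac]; exact ⟨i, rfl⟩
    exact this
  have hch : ∀ a : Fin m, ∃ x : E 3, x ∈ frontier P ∧ ∀ i, c i = a → x ∈ face u h i := by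
    intro a
    by_cases h1 : ∃ i, c i = a
    · obtain ⟨i, hi⟩ := h1
      by_cases h2 : ∃ j, j ≠ i ∧ c j = a
      · obtain ⟨j, hji, hj⟩ := h2
        obtain ⟨-, x, hx1, hx2⟩ := hadj i j (hi.trans hj.symm) hji.symm
        refine ⟨x, facet_frontier (hfacet i) hx1, fun k hk => ?_⟩
        rcases h3 i j k (hi.trans hj.symm) (hj.trans hk.symm) with h | h | h
        · exact absurd h.symm hji
        · exact h ▸ hx2
        · exact h ▸ hx1
      · push Not at h2
        obtain ⟨x, hx⟩ := facet_nonempty (hfacet i)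
        refine ⟨x, facet_frontier (hfacet i) hx, fun k hk => ?_⟩
        by_cases hki : k = i
        · rw [hki]; exact hx
        · exact absurd hk (h2 k hki)
    · push Not at h1
      obtain ⟨x, hx⟩ := facet_nonempty (hfacet ⟨0, by omega⟩)
      exact ⟨x, facet_frontier (hfacet _) hx, fun i hi => absurd hi (h1 i)⟩
  choose p hp1 hp2 using hch
  have h1 := minRep_le (P := P) (Finset.univ.image p) ?_ ?_
  · have h2 : (Finset.univ.image p).card ≤ m :=
      Finset.card_image_le.trans (by simp)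
    rw [hnum]
    omega
  · intro x hx
    simp only [Finset.coe_image, Finset.coe_univ, image_univ, mem_range] at hx
    obtain ⟨a, rfl⟩ := hx
    exact hp1 a
  · intro F hF
    have hF' : F ∈ Set.range (face u h) := by rw [← hfac]; exact hF
    obtain ⟨i, rfl⟩ := hF'
    refine ⟨p (c i), ?_, hp2 (c i) i rfl⟩
    simp

theorem bdd (hA1 : St_A1) (d : ℕ) :
    BddAbove {r : ℝ | ∃ P : Set (E d), Adm d P ∧ r = (minRep P : ℝ) / numFacets P} := by
  refine ⟨1, ?_⟩
  rintro r ⟨P, hP, rfl⟩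
  refine div_le_one_of_le₀ ?_ (Nat.cast_nonneg _)
  exact_mod_cast minRep_le_numFacets hA1 hP

theorem lb (hA1 : St_A1) (hE1 : St_E1) {d N M : ℕ} (hd : 1 ≤ d) (hM : 0 < M)
    (h : HasNM d N M) : (M : ℝ) / (N + M) ≤ L d ∧
      {r : ℝ | ∃ P : Set (E d), Adm d P ∧ r = (minRep P : ℝ) / numFacets P}.Nonempty := by
  obtain ⟨P, hP, h1, h2⟩ := hE1 d N M hd h
  have h3 := minRep_le_numFacets hA1 hP
  refine ⟨?_, ⟨_, P, hP, rfl⟩⟩
  have h4 : (minRep P : ℝ) / numFacets P ≤ L d := le_csSup (bdd hA1 d) ⟨P, hP, rfl⟩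
  refine le_trans ?_ h4
  have h5 : (0 : ℝ) < numFacets P := by
    have : 0 < numFacets P := by omega
    exact_mod_cast this
  have h6 : (numFacets P : ℝ) ≤ N + M := by exact_mod_cast h1
  have h7 : (M : ℝ) ≤ minRep P := by exact_mod_cast h2
  have h8 : (0 : ℝ) ≤ M := Nat.cast_nonneg _
  exact div_le_div₀ (h8.trans h7) h7 h5 h6

theorem L3 (hA1 : St_A1) (hB1 : St_B1) (hB2 : St_B2) (hC : St_C) (hE1 : St_E1) (hE2 : St_E2)
    (hE3 : St_E3) : L 3 = 2 / 3 := by
  have hm : ∀ m : ℕ, 2 ≤ m → HasNM 3 (2 * m + 2) (2 * m * 2) := fun m hm =>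
    hE3.2 2 _ _ 1 _ _ (hE2 m hm) hE3.1
  apply le_antisymm
  · refine csSup_le (lb hA1 hE1 (by norm_num) (by norm_num) (hm 2 le_rfl)).2 ?_
    rintro r ⟨P, hP, rfl⟩
    refine div_le_of_le_mul₀ (Nat.cast_nonneg _) (by norm_num) ?_
    have h1 : (3 : ℝ) * minRep P ≤ 2 * numFacets P := by
      exact_mod_cast ub3 hA1 hB1 hB2 hC hP
    linarith
  · by_contra hlt
    push Not at hlt
    obtain ⟨k, hk⟩ := exists_nat_gt (2 * L 3 / (4 - 6 * L 3))
    have h2 := (lb hA1 hE1 (by norm_num) (by omega) (hm (k + 2) (by omega))).1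
    have hpos : (0 : ℝ) < ((2 * (k + 2) + 2 : ℕ) : ℝ) + ((2 * (k + 2) * 2 : ℕ) : ℝ) := by
      positivity
    rw [div_le_iff₀ hpos] at h2
    push_cast at h2
    have h3 : 0 < 4 - 6 * L 3 := by linarith
    rw [div_lt_iff₀ h3] at hk
    nlinarith

theorem Ld (hA1 : St_A1) (hE1 : St_E1) (hE2 : St_E2) (hE3 : St_E3) (e : ℕ) :
    L (4 + e) = 1 := by
  have hm : ∀ m : ℕ, 2 ≤ m → ∀ e, HasNM (4 + e) (2 * m + 2 * m + 2 * e) (2 * m * (2 * m) * 2 ^ e) := by
    intro m hm e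
    induction e with
    | zero => 
      have := hE3.2 2 _ _ 2 _ _ (hE2 m hm) (hE2 m hm)
      simpa using this
    | succ e ih =>
      have := hE3.2 _ _ _ 1 _ _ ih hE3.1
      have h1 : 2 * m + 2 * m + 2 * e + 2 = 2 * m + 2 * m + 2 * (e + 1) := by ring
      have h2 : 2 * m * (2 * m) * 2 ^ e * 2 = 2 * m * (2 * m) * 2 ^ (e + 1) := by ring
      rw [h1, h2] at this
      exact this
  have hMpos : ∀ m : ℕ, 2 ≤ m → 0 < 2 * m * (2 * m) * 2 ^ e := by
    intro m hm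
    positivity
  apply le_antisymm
  · refine csSup_le (lb hA1 hE1 (by omega) (hMpos 2 le_rfl) (hm 2 le_rfl e)).2 ?_
    rintro r ⟨P, hP, rfl⟩
    refine div_le_one_of_le₀ ?_ (Nat.cast_nonneg _)
    exact_mod_cast minRep_le_numFacets hA1 hP
  · by_contra hlt
    push Not at hlt
    obtain ⟨k, hk⟩ := exists_nat_gt ((2 + e) / (1 - L (4 + e)))
    have hδ : 0 < 1 - L (4 + e) := by linarith
    rw [div_lt_iff₀ hδ] at hk
    have hk2 : 2 ≤ k + 2 := by omega
    have h2 := (lb hA1 hE1 (by omega) (hMpos (k + 2) hk2) (hm (k + 2) hk2 e)).1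
    have hpos : (0 : ℝ) < ((2 * (k + 2) + 2 * (k + 2) + 2 * e : ℕ) : ℝ) +
        ((2 * (k + 2) * (2 * (k + 2)) * 2 ^ e : ℕ) : ℝ) := by
      positivity
    rw [div_le_iff₀ hpos] at h2
    push_cast at h2
    set δ := 1 - L (4 + e) with hδdef
    have hL : L (4 + e) = 1 - δ := by rw [hδdef]; ring
    rw [hL] at h2
    set K : ℝ := (k : ℝ) + 2 with hK
    have hKpos : 2 ≤ K := by rw [hK]; have : (0 : ℝ) ≤ k := Nat.cast_nonneg _; linarith
    have hKδ : (2 + e : ℝ) < K * δ := by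
      rw [hK]; nlinarith
    have he : (0 : ℝ) ≤ e := Nat.cast_nonneg _
    have hp : (1 : ℝ) ≤ 2 ^ e := one_le_pow₀ (by norm_num)
    have h3 : δ * (2 * K * (2 * K) * 2 ^ e) ≤ (1 - δ) * (2 * K + 2 * K + 2 * e) := by linarith
    have h4 : (1 - δ) * (2 * K + 2 * K + 2 * e) ≤ 2 * K + 2 * K + 2 * e := by
      nlinarith
    have h5 : δ * (2 * K * (2 * K)) * 1 ≤ δ * (2 * K * (2 * K)) * 2 ^ e := by
      apply mul_le_mul_of_nonneg_left hp
      positivity
    have h6 : 4 * K * (K * δ) ≤ 4 * K + 2 * e := by nlinarith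
    have h7 : 4 * K * (2 + e) < 4 * K * (K * δ) := by
      apply mul_lt_mul_of_pos_left hKδ
      linarith
    nlinarith

theorem final (hA1 : St_A1) (hB1 : St_B1) (hB2 : St_B2) (hC : St_C) (hE1 : St_E1) (hE2 : St_E2)
    (hE3 : St_E3) : L 3 = 2 / 3 ∧ ∀ d : ℕ, 4 ≤ d → L d = 1 := by
  refine ⟨L3 hA1 hB1 hB2 hC hE1 hE2 hE3, fun d hd => ?_⟩
  obtain ⟨e, rfl⟩ := Nat.exists_eq_add_of_le hd
  exact Ld hA1 hE1 hE2 hE3 e

end Pool.Agent.R179.Fac
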