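import Pool.Agent.R179.Fac.Defs

open Set

namespace Pool.Agent.R179.Fac

/-- FAC-A1: irredundant representation by facets. -/
def St_A1 : Prop := ∀ (d : ℕ) (P : Set (E d)), IsPolytope P → (interior P).Nonempty →
  ∃ (n : ℕ) (u : Fin n → E d) (h : Fin n → ℝ), P = HPoly u h ∧ Irr u h ∧
    (∃ x, ∀ i, inner ℝ (u i) x < h i) ∧ Function.Injective (face u h) ∧
    {F | IsFacet P F} = Set.range (face u h)

/-- FAC-A2: the number of facets is at most the number of half-spaces. -/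
def St_A2 : Prop := ∀ (d n : ℕ) (u : Fin n → E d) (h : Fin n → ℝ),
  (∃ x, ∀ i, inner ℝ (u i) x < h i) →
  {F | IsFacet (HPoly u h) F}.Finite ∧ numFacets (HPoly u h) ≤ n

/-- FAC-V: the facets visible from a point form a connected set of facets. -/
def St_V : Prop := ∀ (d n : ℕ) (u : Fin n → E d) (h : Fin n → ℝ),
  (∃ x, ∀ i, inner ℝ (u i) x < h i) → Irr u h → ∀ z : E d,
    ((touch u h).induce {k | h k < inner ℝ (u k) z}).Preconnected

/-- FAC-B1: the touching graph of a 3-polytope is connected and has at least 3 vertices. -/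
def St_B1 : Prop := ∀ (n : ℕ) (u : Fin n → E 3) (h : Fin n → ℝ),
  Bornology.IsBounded (HPoly u h) → (∃ x, ∀ i, inner ℝ (u i) x < h i) → Irr u h →
    3 ≤ n ∧ (touch u h).Preconnected

/-- FAC-B2: the component bound for 3-polytopes. -/
def St_B2 : Prop := ∀ (n : ℕ) (u : Fin n → E 3) (h : Fin n → ℝ),
  Bornology.IsBounded (HPoly u h) → (∃ x, ∀ i, inner ℝ (u i) x < h i) → Irr u h →
    ∀ S : Finset (Fin n), S.Nonempty →
      Nat.card ((touch u h).induce ((S : Set (Fin n))ᶜ)).ConnectedComponent ≤ 2 * S.card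

/-- FAC-C: a matching of size at least `n/3` from Tutte's theorem. -/
def St_C : Prop := ∀ (n : ℕ) (G : SimpleGraph (Fin n)), 3 ≤ n → G.Preconnected →
  (∀ S : Finset (Fin n), S.Nonempty →
    Nat.card (G.induce ((S : Set (Fin n))ᶜ)).ConnectedComponent ≤ 2 * S.card) →
  ∃ (m : ℕ) (c : Fin n → Fin m), 3 * m ≤ 2 * n ∧
    (∀ i j, c i = c j → i ≠ j → G.Adj i j) ∧
    (∀ i j k, c i = c j → c j = c k → i = j ∨ j = k ∨ i = k)

/-- FAC-E1: cutting off all the points of `W`. -/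
def St_E1 : Prop := ∀ (d N M : ℕ), 1 ≤ d → HasNM d N M →
  ∃ P : Set (E d), Adm d P ∧ numFacets P ≤ N + M ∧ M ≤ minRep P

/-- FAC-E2: polygons. -/
def St_E2 : Prop := ∀ m : ℕ, 2 ≤ m → HasNM 2 (2 * m) (2 * m)

/-- FAC-E3: products, and the segment. -/
def St_E3 : Prop := HasNM 1 2 2 ∧
  ∀ d N M d' N' M' : ℕ, HasNM d N M → HasNM d' N' M' → HasNM (d + d') (N + N') (M * M')

end Pool.Agent.R179.Fac
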